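import Mathlib
import Pool.Agent.Q25.SN.Ex

namespace Pool.Agent.Results.MP_d3d931_al.NilNotSuper

open Q25.SN

/-- Some finitely generated semigroup is left `2`-nilpotent and right `2`-nilpotent but not
`d`-supernilpotent for any `d`. -/
theorem result : ∃ (S : Type) (_ : Semigroup S),
    (∃ A : Finset S, Subsemigroup.closure (A : Set S) = ⊤) ∧
      LeftNilpotent 2 S ∧ RightNilpotent 2 S ∧ ∀ d : ℕ, ¬ Supernilpotent d S :=
  ⟨Ex, inferInstance, ex_fg, ex_left, ex_right, ex_not_super⟩

end Pool.Agent.Results.MP_d3d931_al.NilNotSuper
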