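import Mathlib
import Pool.Agent.Q25.SN.Final

namespace Pool.Agent.Results.MP_d3d931_al.SuperIsNil

open Q25.SN

universe u

/-- Every supernilpotent semigroup is left nilpotent and right nilpotent, the class being bounded
in terms of the degree of supernilpotence only; every `d`-supernilpotent monoid is left and right
`d`-nilpotent. -/
theorem result :
    (∀ d : ℕ, ∃ m : ℕ, ∀ (S : Type u) [Semigroup S], Supernilpotent d S →
      LeftNilpotent m S ∧ RightNilpotent m S) ∧
    (∀ (d : ℕ) (M : Type u) [Monoid M], Supernilpotent d M →
      LeftNilpotent d M ∧ RightNilpotent d M) :=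
  ⟨fun d => ⟨cls d, fun _ _ h => semigroup_nilp h⟩, fun _ _ _ h => monoid_nilp h⟩

end Pool.Agent.Results.MP_d3d931_al.SuperIsNil
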